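import Pool.Agent.Q130.NM.Main

/-!
# MP_1c393c: non-monotonicity of rainbow subgraphs

The 4-cycle with `t` pendant edges at one vertex has a non-monotone witness for every `t`.
The definitions `Proper`, `Uses`, `IsChromaticIndex`, `HasRainbow` and `IsWitness` are in
`Pool.Agent.Q130.NM.Defs`; `HG t` is the 4-cycle with `t` pendant edges at one vertex.
-/

namespace Pool.Agent.Results.MP_1c393c_co.PendantC4

open Q130.NM SimpleGraph

instance (t : ℕ) : Fintype (HV t) := by
  classical
  let f : Fin 4 ⊕ Fin t ≃ HV t :=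
    { toFun := Sum.elim ![.a, .b, .c, .d] .leaf
      invFun := fun x => match x with
        | .a => Sum.inl 0
        | .b => Sum.inl 1
        | .c => Sum.inl 2
        | .d => Sum.inl 3
        | .leaf j => Sum.inr j
      left_inv := by
        rintro (x | x)
        · fin_cases x <;> rfl
        · rfl
      right_inv := by intro x; cases x <;> rfl }
  exact Fintype.ofEquiv _ f

lemma card_HV (t : ℕ) : Fintype.card (HV t) = t + 4 := by
  classical
  let f : Fin 4 ⊕ Fin t ≃ HV t :=
    { toFun := Sum.elim ![.a, .b, .c, .d] .leaf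
      invFun := fun x => match x with
        | .a => Sum.inl 0
        | .b => Sum.inl 1
        | .c => Sum.inl 2
        | .d => Sum.inl 3
        | .leaf j => Sum.inr j
      left_inv := by
        rintro (x | x)
        · fin_cases x <;> rfl
        · rfl
      right_inv := by intro x; cases x <;> rfl }
  rw [← Fintype.card_congr f]
  simp [add_comm]

lemma HG_connected (t : ℕ) : (HG t).Connected := by
  have hab : (HG t).Adj .a .b := trivial
  have hbc : (HG t).Adj .b .c := trivial
  have had : (HG t).Adj .a .d := trivial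
  have hall : ∀ x, (HG t).Reachable .a x := by
    intro x
    cases x with
    | a => exact Reachable.refl _
    | b => exact hab.reachable
    | c => exact hab.reachable.trans hbc.reachable
    | d => exact had.reachable
    | leaf j =>
      have h : (HG t).Adj .a (.leaf j) := trivial
      exact h.reachable
  have : Nonempty (HV t) := ⟨.a⟩
  exact ⟨fun x y => (hall x).symm.trans (hall y)⟩

/-- The witness has a proper colouring without rainbow copy of `H_t`. -/
lemma no_rainbow {t p : ℕ} [Fact p.Prime] (hp : t + 4 ≤ p) :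
    ∃ c, Proper (wit t p) c ∧ ¬ HasRainbow (wit t p) (HG t) c := by
  classical
  have : Finite (Sym2 (Vx t p)) := inferInstance
  obtain ⟨n, ⟨N⟩⟩ := Finite.exists_equiv_fin (Sym2 (Vx t p))
  let e1 : Sym2 (Vx t p) := s(.v1, .pt false 0 0)
  let e2 : Sym2 (Vx t p) := s(.v3, .pt true 0 0)
  let c : Sym2 (Vx t p) → ℕ := fun e => if e = e2 then (N e1 : ℕ) else (N e : ℕ)
  have hN : ∀ e f, (N e : ℕ) = N f → e = f := fun e f h => N.injective (Fin.ext h)
  have h12 : e1 ≠ e2 := by simp [e1, e2]
  have hc12 : c e1 = c e2 := by simp [c, h12]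
  refine ⟨c, ?_, ?_⟩
  · intro e he f hf hne ⟨v, hve, hvf⟩ h
    simp only [c] at h
    have hshare : ∀ v, v ∈ e1 → v ∈ e2 → False := by
      intro v h1 h2
      simp only [e1, e2, Sym2.mem_iff] at h1 h2
      rcases h1 with rfl | rfl <;> rcases h2 with h2 | h2 <;> simp at h2
    split_ifs at h with h1 h2 h2
    · exact hne (h1.trans h2.symm)
    · have := hN _ _ h
      subst h1; subst this
      exact hshare v hvf hve
    · have := hN _ _ h
      subst h2; subst this
      exact hshare v hve hvf
    · exact hne (hN _ _ h)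
  · rintro ⟨φ, hφ, hadj, hrb⟩
    have a1 : (HG t).Adj .a .b := trivial
    have a2 : (HG t).Adj .b .c := trivial
    have a3 : (HG t).Adj .c .d := trivial
    have a4 : (HG t).Adj .d .a := trivial
    have hac : φ HV.a ≠ φ HV.c := fun h => by have := hφ h; cases this
    have hbd : φ HV.b ≠ φ HV.d := fun h => by have := hφ h; cases this
    have hQ : Q (φ .a) (φ .b) (φ .c) (φ .d) :=
      ⟨hadj _ _ a1, hadj _ _ a2, hadj _ _ a3, hadj _ _ a4, hac, hbd⟩
    -- both special edges are in the image
    have key : ∀ x1 x2 x3 x4 : HV t, (HG t).Adj x1 x2 → (HG t).Adj x2 x3 → (HG t).Adj x3 x4 →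
        (HG t).Adj x4 x1 → Q (φ x1) (φ x2) (φ x3) (φ x4) → φ x1 = .v1 → False := by
      intro x1 x2 x3 x4 b1 b2 b3 b4 hq h1
      rw [h1] at hq
      obtain ⟨h3, h | h⟩ := Q_v1 hq
      · have e : Sym2.map φ s(x1, x2) = e1 := by simp [Sym2.map_mk, h1, h.1, e1]
        have f : Sym2.map φ s(x3, x4) = e2 := by simp [Sym2.map_mk, h3, h.2, e2]
        refine hrb s(x1, x2) b1 s(x3, x4) b3 ?_ ?_
        · intro heq
          rw [heq, f] at e
          exact h12 e.symm
        · rw [e, f]; exact hc12
      · have e : Sym2.map φ s(x4, x1) = e1 := by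
          rw [Sym2.eq_swap]; simp [Sym2.map_mk, h1, h.2, e1]
        have f : Sym2.map φ s(x2, x3) = e2 := by
          rw [Sym2.eq_swap]; simp [Sym2.map_mk, h3, h.1, e2]
        refine hrb s(x4, x1) b4 s(x2, x3) b2 ?_ ?_
        · intro heq
          rw [heq, f] at e
          exact h12 e.symm
        · rw [e, f]; exact hc12
    rcases Q_all hp hQ with h | h | h | h
    · exact key _ _ _ _ a1 a2 a3 a4 hQ h
    · exact key _ _ _ _ a2 a3 a4 a1 hQ.rot h
    · exact key _ _ _ _ a3 a4 a1 a2 hQ.rot.rot h
    · exact key _ _ _ _ a4 a1 a2 a3 hQ.rot.rot.rot h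

/-- **An infinite family of graphs with a non-monotone witness.**  For every `t` the 4-cycle
with `t` pendant edges at one vertex, a connected graph with `t + 4` vertices, has a non-monotone
witness (a finite graph). -/
theorem result (t : ℕ) : Fintype.card (HV t) = t + 4 ∧ (HG t).Connected ∧
    ∃ (V : Type) (_ : Finite V) (G : SimpleGraph V), IsWitness G (HG t) := by
  refine ⟨card_HV t, HG_connected t, ?_⟩
  obtain ⟨p, hp, hprime⟩ := Nat.exists_infinite_primes (t + 4)
  haveI : Fact p.Prime := ⟨hprime⟩
  exact ⟨Vx t p, inferInstance, wit t p, t + 4, chromaticIndex,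
    fun c hc hu => rainbow hc hu, no_rainbow hp⟩

end Pool.Agent.Results.MP_1c393c_co.PendantC4
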